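import Mathlib
import Pool.Agent.Lib.MP_f45649_co.Final

/-!
The Turán numbers of disjoint unions of odd wheels, for all tuples of sizes and all large `n`,
and the exact set of tuples for which the posed formula is correct.
-/

namespace Pool.Agent.Results.MP_f45649_co.ExactTuran

open Pool.Agent.MP_f45649_co SimpleGraph

/-- The number of edges of `K_{m-1}` joined to a complete bipartite graph `K_{a,b}`,
`a + b = n - (m - 1)`, with a largest matching added inside each of the two parts,
maximised over `a`. -/
def matchingValue (m n : ℕ) : ℕ :=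
  (m - 1).choose 2 + (m - 1) * (n - (m - 1)) +
    (Finset.range (n - (m - 1) + 1)).sup
      (fun a => a * (n - (m - 1) - a) + a / 2 + (n - (m - 1) - a) / 2)

/-- Let `m ≥ 1` and `k_1 ≥ … ≥ k_m ≥ 2`, let `F` be the disjoint union of the odd wheels
`W_{2 k_i + 1}` and let `posedValue k n` be `max_{1 ≤ n₀ ≤ n} (n₀ (n - n₀) + ex(n₀, F*) + 1)`.
For all large `n` the extremal number `ex(n, F)` is the larger of `posedValue k n` and
`matchingValue m n`. The equality `ex(n, F) = posedValue k n` holds for all large `n` if and only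
if `k_i > 2 (m - i + 1)` for some `i` (the index `i` of the text is `i + 1` in `Fin m`), and
otherwise `ex(n, F) > posedValue k n` for all large `n`. -/
theorem result (m : ℕ) (hm : 1 ≤ m) (k : Fin m → ℕ) (hanti : Antitone k)
    (hk : ∀ i, 2 ≤ k i) :
    (∃ n₁ : ℕ, ∀ n : ℕ, n₁ ≤ n →
      extremalNumber n (wheels k) = max (posedValue k n) (matchingValue m n)) ∧
    ((∃ n₁ : ℕ, ∀ n : ℕ, n₁ ≤ n → extremalNumber n (wheels k) = posedValue k n) ↔
      ∃ i : Fin m, 2 * (m - i) < k i) ∧
    ((∀ i : Fin m, k i ≤ 2 * (m - i)) →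
      ∃ n₁ : ℕ, ∀ n : ℕ, n₁ ≤ n → posedValue k n < extremalNumber n (wheels k)) :=
  ⟨main_value hm k hanti hk, main_iff hm k hanti hk, posed_lt hm k hk⟩

end Pool.Agent.Results.MP_f45649_co.ExactTuran
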